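import Pool.Agent.Helper43.BL2.Master2
import Pool.Agent.Helper43.BL.Master

/-!
Project BL2 (MP_b8862a_ag): the main theorem, with the weaker hypotheses on the Galois group if there is no common divisor.
-/

set_option linter.unusedSectionVars false

open Matrix Module GH

namespace MH

/-- The group is generated by its Hodge cocharacters: a tensor of weight zero for all the Hodge-Tate decompositions with the
numbers of the conjugates of the Hodge decomposition is fixed by a subgroup of finite index. -/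
def IsGenB {n : Type*} [Fintype n] [DecidableEq n] (w : ℤ) (Q : Matrix n n ℚ) (S : Finset ℤ) (P : ℤ → Matrix n n ℂ)
    (Γ : Subgroup (GL n ℂ)) : Prop :=
  ∀ (a b : ℕ) (t : (Fin a ⊕ Fin b → n) → ℂ),
    (∀ (σ : ℂ ≃+* ℂ) (S' : Finset ℤ) (R : ℤ → Matrix n n ℂ), IsHTs w Q S P Γ σ S' R → ∀ z : ℂ, z ≠ 0 →
      actF (slot a b (∑ p ∈ S', z ^ p • R p) (∑ p ∈ S', z⁻¹ ^ p • R p)) t = t) → IsTateTensor Γ a b t

variable {n : Type} [Fintype n] [DecidableEq n]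
variable {w : ℤ} {Q : Matrix n n ℚ} {S : Finset ℤ} {P : ℤ → Matrix n n ℂ} {Γ : Subgroup (GL n ℂ)}

/-- the type of a block for the Galois group, without common divisor -/
theorem IsGalA.tyN_gcd14 {E E' : Set ℕ} (hE : ExP E) (hU : FullP E') (H : IsHW w Q S P) (G : IsGalA w Q S P Γ)
    (hT : IsTateN S P Γ) {e : Matrix n n ℂ} (he : IsBlk P e) {r : ℕ} {W : Matrix n (Fin r) ℂ} {V : Matrix (Fin r) n ℂ}
    (hVW : V * W = 1) (hWV : W * V = e) (hr : 2 ≤ r) {σ : ℂ ≃+* ℂ} (hd : ∀ d : ℕ, (∀ p, d ∣ (e.map σ * P p).rank) → d = 1)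
    (hg : GoodB E E' w Q S P e σ) : TyN (cpS W V (LG Γ)) := by
  have hre : e.rank = r := _root_.MH.blk_rank he hVW hWV
  obtain ⟨S', R, hR⟩ := G.conj σ.symm
  have hnum : (fun p => (e * R p).rank) = fun p => (e.map σ * P p).rank := by
    funext p
    rw [hR.rank e he p, H.rank_symm43 he]
  have hnum' : ∀ p, (e * R p).rank = (e.map σ * P p).rank := fun p => congrFun hnum p
  have hd' : ∀ d : ℕ, (∀ p, d ∣ (e * R p).rank) → d = 1 := fun d hd' => hd d fun p => by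
    rw [← hnum']
    exact hd' p
  have dom : DomB w Q S P (e.map σ) → TyN (cpS W V (LG Γ)) := fun hD =>
    (G.toN.toU H hT).tyN H he hVW hWV hr hR.toIsHTw hd' (hR.domR_one43 H he hD)
  rcases hg with ⟨h9, hO, m, k, hm, h0, -, hx⟩ | ⟨hI, h2⟩ | hD
  · have hT3 : ThreeB w Q P e (e.map σ) := ⟨h9, hO, m, k, hm, h0, hx⟩
    rcases hT3.condL H he hd with hD | ⟨m, t, h, hm, hO, h9, hN, hb⟩
    · exact dom hD
    · refine (G.toN.toU H hT).full_crO43 H he hVW hWV hr hR.toIsHTw hd' hm hO ?_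
      rw [hnum, hm]
      have h1 := rank_num3 H (he.aut σ) hN
      rw [rank_aut σ he.idem, hre] at h1
      exact goodL_exc m _ t h _ hN h1 (by omega) hb
  · rcases hI with ⟨hSB, hr', hI⟩ | ⟨hr', hI⟩
    · refine (G.toN.toU H hT).full_crW H he hVW hWV hr hR.toIsHTw hd' hSB ?_
      rw [hnum, ← hre]
      exact hE.crW hr' hI h2
    · refine hU n w Q S P H _ (G.toN.toU H hT) e he r W V hVW hWV hr S' R hR.toIsHTw hd' ?_ ?_ ?_
      · rw [hnum, ← hre]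
        exact h2
      · rw [hnum]
        exact hI
      · rw [← hre]
        exact hr'
  · exact dom hD

/-- **The main theorem.** -/
theorem master14 {E E' : Set ℕ} (hE : ExP E) (hEE : E ⊆ E')
    (hU : ∀ (r : ℕ) (h : ℤ → ℕ), r ∉ E' → IndecU h → ¬ Arith r h → CrUP r h) (hF : FullP E') (H : IsHW w Q S P)
    (hdom : ∀ e, IsBlk P e → 2 ≤ e.rank → OkB E E' w Q S P e ∨ (∃ σ : ℂ ≃+* ℂ, RankB E E' w Q P e σ) ∧
        ∀ A : Matrix n n ℚ, (∀ p, toC A * P p = P p * toC A) → ∃ c : ℚ, A = c • (1 : Matrix n n ℚ)) :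
    (∀ g : GL n ℂ, InD Q S P (g : Matrix n n ℂ) → g ∈ MT S P) ∧
    (∀ g ∈ MT S P, ∀ h ∈ MT S P, InD Q S P ((g * h * g⁻¹ * h⁻¹ : GL n ℂ) : Matrix n n ℂ)) ∧
    (SelfDual Q P → ∀ g : GL n ℂ, g ∈ MT S P ↔ InGw w Q P (g : Matrix n n ℂ)) ∧
    ∀ (ℓ : ℕ) [Fact ℓ.Prime] (ι : ℚ_[ℓ] →+* ℂ) (Γ : Subgroup (GL n ℚ_[ℓ])),
      IsGalA w Q S P (Γ.map (Matrix.GeneralLinearGroup.map ι)) →
      (IsTateN S P (Γ.map (Matrix.GeneralLinearGroup.map ι)) ∧ ∀ e, IsBlk P e → 2 ≤ e.rank →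
        (OkB E E' w Q S P e ∧ IsGenB w Q S P (Γ.map (Matrix.GeneralLinearGroup.map ι))) ∨
        ∃ σ : ℂ ≃+* ℂ, GoodB E E' w Q S P e σ ∧ ∀ d : ℕ, (∀ p, d ∣ (e.map σ * P p).rank) → d = 1) ∨
      (∃ D : Subgroup (GL n ℚ), IsMonB Q S P D ∧ D.map (Matrix.GeneralLinearGroup.map (algebraMap ℚ ℚ_[ℓ])) ≤ Γ) →
      ∀ (a b : ℕ) (t : (Fin a ⊕ Fin b → n) → ℂ),
        IsTateTensor (Γ.map (Matrix.GeneralLinearGroup.map ι)) a b t ↔ MTfix S P a b t := by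
  have hty : ∀ f, IsBlk P f → 2 ≤ f.rank → TyBN Q S P f := by
    intro f hf hf2
    rcases hdom f hf hf2 with h | ⟨⟨σ, h1⟩, h2⟩
    · obtain ⟨σ, h1, h2⟩ := h.exists43 H hf hf2
      exact H.tyBN_star43 hE hU hf hf2 h1 h2
    · exact H.tyBN_atP hE hEE hF hf hf2 h1 (Or.inr h2)
  obtain ⟨k1, k2, k3, k4⟩ := at_of_tyA H hty
  refine ⟨k1, k2, k3, fun ℓ _ ι Γ G hAB => k4 _ G ?_⟩
  rcases hAB with ⟨hT, hg⟩ | ⟨D, hD, hle⟩
  · refine Or.inr ⟨hT, fun e he r W V hVW hWV hr => ?_⟩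
    have hre : e.rank = r := _root_.MH.blk_rank he hVW hWV
    rcases hg e he (by omega) with ⟨h1, h2⟩ | ⟨σ, h1, h2⟩
    · exact IsGalG.tyN_ok43 hE hU H ⟨G.sim, G.semi, G.conj, h2⟩ hT he hVW hWV hr h1
    · exact G.tyN_gcd14 hE hF H hT he hVW hWV hr h2 h1
  · refine Or.inl ⟨D, hD, ?_⟩
    refine le_trans (le_of_eq ?_) (Subgroup.map_mono hle)
    rw [mapC, Subgroup.map_map]
    congr 1
    ext g i j
    simp [Matrix.GeneralLinearGroup.map_apply]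

end MH
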